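import Pool.Agent.N589.LL.Tasks

/-!
# Strong approximation for the adeles of `F_2(t)` (project LL, LL/09)
-/

open scoped WithZero Polynomial MatrixGroups Topology
open IsDedekindDomain RestrictedProduct

noncomputable section

namespace N589LL

/-- the partial fraction part of an element of `K` at a finite place -/
theorem apx_part (w : HeightOneSpectrum A) (y0 : K) : ∃ y : K, pv (some w) (y0 - y) ≤ 1 ∧
    ∀ w' : HeightOneSpectrum A, w' ≠ w → pv (some w') y ≤ 1 := by
  obtain ⟨P, hP⟩ := IsPrincipalIdealRing.principal w.asIdeal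
  have hPn : P ≠ 0 := by
    rintro rfl
    exact w.ne_bot (by rw [hP]; simp)
  have hPp : Prime P := (Ideal.span_singleton_prime hPn).1 (by
    have := w.isPrime
    rw [hP] at this
    exact this)
  have hmem : ∀ x : A, x ∈ w.asIdeal ↔ P ∣ x := fun x => by
    rw [hP]; exact Ideal.mem_span_singleton
  obtain ⟨f, g', hg', rfl⟩ := IsFractionRing.div_surjective (A := A) (K := K) y0
  have hg0 : g' ≠ 0 := nonZeroDivisors.ne_zero hg'
  obtain ⟨k, g, rfl, hg⟩ : ∃ (k : ℕ) (g : A), g' = P ^ k * g ∧ ¬ P ∣ g := by
    obtain ⟨g, h1, h2⟩ :=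
      (FiniteMultiplicity.of_prime_left hPp hg0).exists_eq_pow_mul_and_not_dvd
    exact ⟨_, g, h1, h2⟩
  have hcop : IsCoprime (P ^ k) g := by
    apply IsCoprime.pow_left
    exact (Irreducible.coprime_iff_not_dvd hPp.irreducible).2 hg
  obtain ⟨a, b, hab⟩ := hcop
  have hgn : g ≠ 0 := fun h => hg (by rw [h]; exact dvd_zero _)
  have hgK : algebraMap A K g ≠ 0 := by
    rw [Ne, map_eq_zero_iff _ (IsFractionRing.injective A K)]; exact hgn
  have hPK : algebraMap A K (P ^ k) ≠ 0 := by
    rw [Ne, map_eq_zero_iff _ (IsFractionRing.injective A K)]; exact pow_ne_zero _ hPn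
  refine ⟨algebraMap A K (f * b) / algebraMap A K (P ^ k), ?_, ?_⟩
  · have e : algebraMap A K f / algebraMap A K (P ^ k * g) -
        algebraMap A K (f * b) / algebraMap A K (P ^ k) =
        algebraMap A K (f * a) / algebraMap A K g := by
      have h1 : algebraMap A K (a * P ^ k + b * g) = 1 := by rw [hab, map_one]
      rw [map_add, map_mul, map_mul] at h1
      rw [map_mul, map_mul, map_mul]
      field_simp
      linear_combination -(algebraMap A K f) * h1
    rw [e]
    have h2 : w.valuation K (algebraMap A K g) = 1 := by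
      rw [HeightOneSpectrum.valuation_eq_one_iff_notMem, hmem]; exact hg
    change w.valuation K _ ≤ 1
    rw [map_div₀, h2, div_one]
    exact w.valuation_le_one _
  · intro w' hw'
    have h2 : w'.valuation K (algebraMap A K (P ^ k)) = 1 := by
      rw [HeightOneSpectrum.valuation_eq_one_iff_notMem]
      intro h3
      have h4 : P ∈ w'.asIdeal := w'.isPrime.mem_of_pow_mem k h3
      have h5 : w.asIdeal ≤ w'.asIdeal := by
        rw [hP, Submodule.span_le]
        intro x hx
        rw [Set.mem_singleton_iff.1 hx]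
        exact h4
      have h6 := w.isMaximal.eq_of_le w'.isPrime.ne_top h5
      exact hw' (HeightOneSpectrum.ext h6.symm)
    change w'.valuation K _ ≤ 1
    rw [map_div₀, h2, div_one]
    exact w'.valuation_le_one _

/-- the polynomial part at infinity -/
theorem apx_inf (y0 : K) : ∃ q : A, pv none (y0 - algebraMap A K q) < 1 := by
  obtain ⟨f, g, hg, rfl⟩ := IsFractionRing.div_surjective (A := A) (K := K) y0
  have hg0 : g ≠ 0 := nonZeroDivisors.ne_zero hg
  have hgK : algebraMap A K g ≠ 0 := by
    rw [Ne, map_eq_zero_iff _ (IsFractionRing.injective A K)]; exact hg0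
  refine ⟨f / g, ?_⟩
  have e : algebraMap A K f / algebraMap A K g - algebraMap A K (f / g) =
      algebraMap A K (f % g) / algebraMap A K g := by
    have h1 : algebraMap A K f = algebraMap A K g * algebraMap A K (f / g) +
        algebraMap A K (f % g) := by
      rw [← map_mul, ← map_add, EuclideanDomain.div_add_mod]
    rw [h1]
    field_simp
    ring
  rw [e]
  by_cases hr : f % g = 0
  · rw [hr, map_zero, zero_div, map_zero]
    exact zero_lt_one
  · have hrK : algebraMap A K (f % g) ≠ 0 := by
      rw [Ne, map_eq_zero_iff _ (IsFractionRing.injective A K)]; exact hr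
    rw [map_div₀]
    have h2 : pv none (algebraMap A K (f % g)) = WithZero.exp ((f % g).natDegree : ℤ) := by
      classical
      exact RatFunc.inftyValuation.polynomial _ hr
    have h3 : pv none (algebraMap A K g) = WithZero.exp (g.natDegree : ℤ) := by
      classical
      exact RatFunc.inftyValuation.polynomial _ hg0
    have h4 : (f % g).natDegree < g.natDegree := by
      apply Polynomial.natDegree_lt_natDegree hr
      exact EuclideanDomain.mod_lt f hg0
    rw [h2, h3, ← WithZero.exp_sub, ← WithZero.exp_zero, WithZero.exp_lt_exp]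
    omega

/-- strong approximation -/
theorem apx_one (h : TaskLocTop) (x : Adele) : ∃ y : K, (∀ v, val v (x v - incl v y) ≤ 1) ∧
    val none (x none - incl none y) < 1 := by
  classical
  -- the finite places
  have hfin : {v : Place | x v ∉ Ov v}.Finite := x.2
  have hfin' : {w : HeightOneSpectrum A | x (some w) ∉ Ov (some w)}.Finite :=
    hfin.preimage (Option.some_injective _).injOn
  have h1 : ∀ w : HeightOneSpectrum A, ∃ y : K, val (some w) (x (some w) - incl (some w) y) ≤ 1 ∧
      ∀ w' : HeightOneSpectrum A, w' ≠ w → pv (some w') y ≤ 1 := by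
    intro w
    obtain ⟨y0, hy0⟩ := (h (some w)).2.1 (x (some w)) 0
    rw [neg_zero, WithZero.exp_zero] at hy0
    obtain ⟨y, hy, hy'⟩ := apx_part w y0
    refine ⟨y, ?_, hy'⟩
    have e : x (some w) - incl (some w) y =
        (x (some w) - incl (some w) y0) + incl (some w) (y0 - y) := by
      rw [map_sub]; ring
    rw [e]
    refine (Valuation.map_add _ _ _).trans (max_le hy0 ?_)
    rw [val_incl]
    exact hy
  choose Y hY hY' using h1
  obtain ⟨y1, hy1⟩ : ∃ y1, y1 = ∑ w ∈ hfin'.toFinset, Y w := ⟨_, rfl⟩
  have h2 : ∀ w : HeightOneSpectrum A, val (some w) (x (some w) - incl (some w) y1) ≤ 1 := by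
    intro w
    by_cases hw : w ∈ hfin'.toFinset
    · rw [hy1, ← Finset.add_sum_erase _ _ hw, map_add, ← sub_sub]
      refine (Valuation.map_sub _ _ _).trans (max_le (hY w) ?_)
      rw [map_sum]
      refine Valuation.map_sum_le _ fun w' hw' => ?_
      rw [val_incl]
      exact hY' w' w (Finset.ne_of_mem_erase hw').symm
    · have hx : val (some w) (x (some w)) ≤ 1 := by
        by_contra hc
        apply hw
        rw [Set.Finite.mem_toFinset]
        exact hc
      refine (Valuation.map_sub _ _ _).trans (max_le hx ?_)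
      rw [hy1, map_sum]
      refine Valuation.map_sum_le _ fun w' hw' => ?_
      rw [val_incl]
      refine hY' w' w ?_
      rintro rfl
      exact hw hw'
  -- the infinite place
  obtain ⟨y0, hy0⟩ := (h none).2.1 (x none - incl none y1) 1
  obtain ⟨q, hq⟩ := apx_inf y0
  have h3 : val none (x none - incl none (y1 + algebraMap A K q)) < 1 := by
    have e : x none - incl none (y1 + algebraMap A K q) =
        (x none - incl none y1 - incl none y0) + incl none (y0 - algebraMap A K q) := by
      rw [map_sub, map_add]; ring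
    rw [e]
    refine Valuation.map_add_lt _ (lt_of_le_of_lt hy0 ?_) ?_
    · rw [← WithZero.exp_zero, WithZero.exp_lt_exp]; norm_num
    · rw [val_incl]; exact hq
  refine ⟨y1 + algebraMap A K q, ?_, h3⟩
  rintro (_ | w)
  · exact h3.le
  · rw [map_add, ← sub_sub]
    refine (Valuation.map_sub _ _ _).trans (max_le (h2 w) ?_)
    rw [val_incl]
    exact w.valuation_le_one q

theorem Ov_open (h : TaskLocTop) (v : Place) : IsOpen (Ov v : Set (Kv v)) := by
  refine AddSubgroup.isOpen_of_mem_nhds (Ov v).toAddSubgroup (g := 0) ?_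
  change ((Ov v : Set (Kv v))) ∈ _
  rw [(h v).2.2.1]
  refine ⟨0, fun x hx => ?_⟩
  rw [Set.mem_ofPred_eq, neg_zero, WithZero.exp_zero] at hx
  exact hx

/-- the quotient is finite -/
theorem apx_two (h : TaskLocTop) (o : AddSubgroup Adele) (ho : IsOpen (o : Set Adele)) :
    Finite (Adele ⧸ (o ⊔ diagK.range.toAddSubgroup)) := by
  classical
  have : ∀ v, CompactSpace (Ov v) := fun v => (h v).2.2.2
  have : Fact (∀ v : Place, IsOpen (Ov v : Set (Kv v))) := ⟨Ov_open h⟩
  have hB : IsCompact (Set.range (structureMap (fun v : Place => Kv v)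
      (fun v => (Ov v : Set (Kv v))) Filter.cofinite)) :=
    isCompact_range isEmbedding_structureMap.continuous
  have hopen : ∀ b : Adele, IsOpen {x : Adele | x - b ∈ o} := by
    intro b
    exact ho.preimage (continuous_id.sub continuous_const)
  obtain ⟨t, ht⟩ := hB.elim_finite_subcover (fun b : Adele => {x : Adele | x - b ∈ o}) hopen (by
    intro x _
    rw [Set.mem_iUnion]
    exact ⟨x, by rw [Set.mem_ofPred_eq, sub_self]; exact o.zero_mem⟩)
  refine Finite.of_surjective (fun b : t => (QuotientAddGroup.mk b.1 :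
    Adele ⧸ (o ⊔ diagK.range.toAddSubgroup))) ?_
  intro q
  obtain ⟨x, rfl⟩ := QuotientAddGroup.mk_surjective q
  obtain ⟨y, hy, -⟩ := apx_one h x
  have hx : x - diagK y ∈ Set.range (structureMap (fun v : Place => Kv v)
      (fun v => (Ov v : Set (Kv v))) Filter.cofinite) := by
    rw [range_structureMap]
    intro v
    exact hy v
  have h1 := ht hx
  rw [Set.mem_iUnion₂] at h1
  obtain ⟨b, hb, hxb⟩ := h1
  refine ⟨⟨b, hb⟩, ?_⟩
  rw [QuotientAddGroup.eq]
  have e : -b + x = (x - diagK y - b) + diagK y := by abel
  rw [e]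
  exact AddSubgroup.add_mem_sup hxb ⟨y, rfl⟩

/-- LL/09 -/
theorem TaskApprox_proof (h : TaskLocTop) : TaskApprox := ⟨apx_one h, apx_two h⟩

end N589LL
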